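import Pool.Agent.Q80.SP.Fin
import Pool.Agent.Q80.VS.Lm

set_option autoImplicit false

/-! One limit measure for the moments off the line, the correlations and the Dirichlet
polynomials. -/

namespace Q80.DC

open MeasureTheory Filter Topology Complex Set ComplexConjugate
open Pool.Agent.W182.KO (P TF)
open Q97.MM Q80.SP
open scoped ENNReal ContDiff

noncomputable section

variable (k : ℕ)

theorem core4 {T U : ℕ → ℝ} {ε : ℝ} (hε : 0 < ε) (hT : Tendsto T atTop atTop)
    (hU : ∀ j, 1 ≤ U j ∧ U j ≤ T j / Real.log (T j)) (hUε : ∀ j, T j ^ ε ≤ U j) :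
    ∃ φ : ℕ → ℕ, StrictMono φ ∧ ∃ ν : Measure ℝ, IsProbabilityMeasure ν ∧
      (∀ᵐ u ∂ν, u ∈ Icc 0 (2 * k : ℝ)) ∧ ν.map (fun u => 2 * (k : ℝ) - u) = ν ∧
      (∀ h : ℝ, Tendsto (fun j => Cq k (T (φ j)) (U (φ j)) h) atTop (𝓝 (fr ν h))) ∧
      (∀ a : ℝ, Tendsto (fun j => Ja k (T (φ j)) (U (φ j)) a / Ja k (T (φ j)) (U (φ j)) 0) atTop
        (𝓝 (∫ u, Real.exp (-(a * u)) ∂ν))) ∧
      (∀ᶠ j in atTop, 0 < M0 k (T (φ j)) (U (φ j))) ∧
      ∀ ψ : ℝ → ℂ, Tst ψ → Tendsto (fun j => SS k ψ (T (φ j)) (U (φ j)) / M0 k (T (φ j)) (U (φ j)))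
        atTop (𝓝 (∫ u, ‖ψ (u / 2)‖ ^ 2 ∂ν)) := by
  obtain ⟨φ, hφ, ν, h0, h1, h2, h3, h4⟩ := seq_limit2 k hT hU
  have hsupp := supp_of_fe h1 h2 h3
  have hJ : ∀ a : ℝ, Tendsto (fun j => Jn k (T (φ j)) (U (φ j)) a) atTop
      (𝓝 (∫ u, Real.exp (-(a * u)) ∂(ν : Measure ℝ))) := by
    intro a
    have e1 := (h4 a).sub ((seq_GJ k hT hU a).comp hφ.tendsto_atTop)
    rw [sub_zero] at e1
    refine e1.congr fun j => ?_
    simp only [Function.comp]
    ring
  have h00 : ∫ u, Real.exp (-((0 : ℝ) * u)) ∂(ν : Measure ℝ) = 1 := by simp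
  have hJ0 := hJ 0
  rw [h00] at hJ0
  have hadm := hφ.tendsto_atTop.eventually (seq_adm hT hU)
  have hJM : ∀ j, Jn k (T (φ j)) (U (φ j)) 0 =
      T (φ j) ^ (2 * k) * M0 k (T (φ j)) (U (φ j)) / V0 k (T (φ j)) (U (φ j)) := by
    intro j
    unfold Jn M0
    rw [zero_div, add_zero]
  have hTs : Tendsto (fun j => T (φ j)) atTop atTop := hT.comp hφ.tendsto_atTop
  have hM : Tendsto (fun j => T (φ j) ^ (2 * k) * M0 k (T (φ j)) (U (φ j)) /
      V0 k (T (φ j)) (U (φ j))) atTop (𝓝 1) := hJ0.congr fun j => hJM j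
  refine ⟨φ, hφ, ν, inferInstance, ?_, symm_of_fe h1 h3, fun h => ?_, fun a => ?_, ?_,
    fun ψ hψ => ?_⟩
  · rw [ae_iff]
    exact hsupp
  · -- the correlation
    set S : ℕ → ℝ := fun j => T (φ j) with hS
    set R : ℕ → ℝ := fun j => U (φ j) with hR
    let fc : BoundedContinuousFunction ℝ ℝ := BoundedContinuousFunction.ofNormedAddCommGroup
      (fun u => Real.cos (h * u / 2)) (by fun_prop) 1 (fun u => Real.abs_cos_le_one _)
    let fs : BoundedContinuousFunction ℝ ℝ := BoundedContinuousFunction.ofNormedAddCommGroup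
      (fun u => Real.sin (h * u / 2)) (by fun_prop) 1 (fun u => Real.abs_sin_le_one _)
    have g1 := h0 fc
    have g2 := h0 fs
    have g3 : Tendsto (fun j => VC k (S j) (R j) (h / Real.log (S j)) / (V0 k (S j) (R j) : ℂ)) atTop
        (𝓝 (fr (ν : Measure ℝ) h)) := by
      rw [fr_eq]
      have g4 := ((Complex.continuous_ofReal.tendsto _).comp g1).sub
        (((Complex.continuous_ofReal.tendsto _).comp g2).mul_const I)
      refine g4.congr' ?_
      filter_upwards [hadm] with j hj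
      exact (VC_eq k hj h).symm
    have g5 : Tendsto (fun j => (S j : ℂ) ^ (2 * k) * CZ k (S j) (R j) (h / Real.log (S j)) /
        (V0 k (S j) (R j) : ℂ)) atTop (𝓝 (fr (ν : Measure ℝ) h)) := by
      have g6 : Tendsto (fun j => VC k (S j) (R j) (h / Real.log (S j)) / (V0 k (S j) (R j) : ℂ) -
          (S j : ℂ) ^ (2 * k) * CZ k (S j) (R j) (h / Real.log (S j)) / (V0 k (S j) (R j) : ℂ))
          atTop (𝓝 0) := by
        rw [Metric.tendsto_nhds]
        intro ε hε
        have hTS : Tendsto S atTop atTop := hT.comp hφ.tendsto_atTop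
        filter_upwards [hTS.eventually (F3 k h (half_pos hε)), hadm] with j q1 q2
        have q3 := q1 (R j) q2
        have q4 := V0_pos k q2
        rw [dist_zero_right, ← sub_div, norm_div, Complex.norm_real, Real.norm_of_nonneg q4.le,
          div_lt_iff₀ q4]
        refine lt_of_le_of_lt q3 ?_
        exact mul_lt_mul_of_pos_right (by linarith) q4
      have g7 := g3.sub g6
      rw [sub_zero] at g7
      refine g7.congr fun j => ?_
      ring
    have g8 : Tendsto (fun j => ((Jn k (S j) (R j) 0 : ℝ) : ℂ)) atTop (𝓝 ((1 : ℝ) : ℂ)) :=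
      (Complex.continuous_ofReal.tendsto _).comp hJ0
    have g9 := g5.div g8 (by simp)
    rw [Complex.ofReal_one, div_one] at g9
    refine g9.congr' ?_
    filter_upwards [hadm] with j hj
    have q4 := V0_pos k hj
    have hS0 : 0 < S j := by linarith [hj.1]
    show (S j : ℂ) ^ (2 * k) * CZ k (S j) (R j) (h / Real.log (S j)) / (V0 k (S j) (R j) : ℂ) /
      ((Jn k (S j) (R j) 0 : ℝ) : ℂ) = Cq k (S j) (R j) h
    rw [hJM j]
    unfold Cq
    push_cast
    have n1 : (V0 k (T (φ j)) (U (φ j)) : ℂ) ≠ 0 := Complex.ofReal_ne_zero.2 q4.ne'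
    have n2 : ((T (φ j) : ℂ)) ^ (2 * k) ≠ 0 := pow_ne_zero _ (Complex.ofReal_ne_zero.2 hS0.ne')
    rw [div_div_div_cancel_right₀ n1, mul_div_mul_left _ _ n2]
  · have e2 := (hJ a).div (hJ 0) (by rw [h00]; exact one_ne_zero)
    rw [h00, div_one] at e2
    refine e2.congr' ?_
    filter_upwards [hadm] with j hj
    exact Jn_div k hj a 0
  · filter_upwards [hadm, hJ0.eventually (lt_mem_nhds (show (1 / 2 : ℝ) < 1 by norm_num))]
      with j q1 q2
    rw [hJM j] at q2
    have q4 := V0_pos k q1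
    have hS0 : 0 < T (φ j) := by linarith [q1.1]
    by_contra hcon
    push Not at hcon
    have : T (φ j) ^ (2 * k) * M0 k (T (φ j)) (U (φ j)) / V0 k (T (φ j)) (U (φ j)) ≤ 0 :=
      div_nonpos_of_nonpos_of_nonneg (mul_nonpos_of_nonneg_of_nonpos (by positivity) hcon) q4.le
    linarith
  · obtain ⟨ξ1, hξ, htf⟩ := hψ.tf
    obtain ⟨B, hB⟩ := htf.cs.exists_bound_of_continuous htf.cont
    have hc : Continuous (fun u : ℝ => ‖ψ (u / 2)‖ ^ 2) := by
      have := htf.cont
      fun_prop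
    let f : BoundedContinuousFunction ℝ ℝ := BoundedContinuousFunction.ofNormedAddCommGroup
      (fun u => ‖ψ (u / 2)‖ ^ 2) hc (B ^ 2) (fun u => by
        rw [Real.norm_of_nonneg (by positivity)]
        have := hB (u / 2)
        gcongr)
    have g1 := h0 f
    have g2 : Tendsto (fun j => T (φ j) ^ (2 * k) * SS k ψ (T (φ j)) (U (φ j)) /
        V0 k (T (φ j)) (U (φ j)) - ∫ u, f u ∂(nuT k (T (φ j)) (U (φ j)))) atTop (𝓝 0) := by
      rw [Metric.tendsto_nhds]
      intro η hη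
      filter_upwards [hTs.eventually (main1 k htf hξ hε (half_pos hη)), hadm] with j q1 q2
      have hV := V0_pos k q2
      have q3 := q1 _ q2 (hUε _)
      rw [Real.dist_eq, sub_zero]
      have e1 : T (φ j) ^ (2 * k) * SS k ψ (T (φ j)) (U (φ j)) / V0 k (T (φ j)) (U (φ j)) -
          ∫ u, f u ∂(nuT k (T (φ j)) (U (φ j))) =
          (T (φ j) ^ (2 * k) * SS k ψ (T (φ j)) (U (φ j)) - V0 k (T (φ j)) (U (φ j)) *
            ∫ u, ‖ψ (u / 2)‖ ^ 2 ∂(nuT k (T (φ j)) (U (φ j)))) / V0 k (T (φ j)) (U (φ j)) := by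
        rw [sub_div, mul_div_cancel_left₀ _ hV.ne']
        rfl
      rw [e1, abs_div, abs_of_pos hV, div_lt_iff₀ hV]
      refine lt_of_le_of_lt q3 ?_
      nlinarith
    have g3 := g2.add g1
    simp only [sub_add_cancel, zero_add] at g3
    have g4 := g3.div hM one_ne_zero
    rw [div_one] at g4
    refine g4.congr' ?_
    filter_upwards [hadm] with j q2
    have hV := V0_pos k q2
    have hS0 : 0 < T (φ j) := by linarith [q2.1]
    have n2 : T (φ j) ^ (2 * k) ≠ 0 := pow_ne_zero _ hS0.ne'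
    simp only [Pi.div_apply]
    rw [div_div_div_cancel_right₀ hV.ne', mul_div_mul_left _ _ n2]

end

end Q80.DC
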