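import Pool.Agent.Q80.DC.Co
import Pool.Agent.Q80.VS.Mv

set_option autoImplicit false

/-! The mean squares of the short Dirichlet polynomials. -/

namespace Q80.DC

open MeasureTheory Filter Topology Complex Set ComplexConjugate
open Pool.Agent.W182.KO (P TF dk)
open Q97.MM Q80.SP
open Q80.VS (pol mean off_lim ak log_one)
open scoped ENNReal ContDiff

noncomputable section

variable {k : ℕ} {ξ1 : ℝ} {ψ : ℝ → ℂ}

/-- the coefficients -/
def cf (k : ℕ) (ψ : ℝ → ℂ) (L : ℝ) (n : ℕ) : ℂ :=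
  (dk k n : ℂ) * ψ (Real.log n / L) * (((n : ℝ) ^ (-(1 / 2 : ℝ)) : ℝ) : ℂ)

theorem cf_zero (L : ℝ) : cf k ψ L 0 = 0 := by
  unfold cf
  rw [dk_zero]
  simp

theorem cf_supp (h : TF ξ1 ψ) {L : ℝ} (hL : 0 < L) {n : ℕ} (hn : cf k ψ L n ≠ 0) :
    (n : ℝ) ≤ Real.exp (ξ1 * L) := by
  rcases Nat.eq_zero_or_pos n with h0 | h0
  · subst h0
    exact absurd (cf_zero L) hn
  by_contra hcon
  push Not at hcon
  apply hn
  have hn0 : (0:ℝ) < n := by exact_mod_cast h0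
  have h1 : ξ1 * L < Real.log n := (Real.lt_log_iff_exp_lt hn0).2 hcon
  unfold cf
  rw [h.sp _ (by rwa [lt_div_iff₀ hL])]
  simp

theorem DP_pol (h : TF ξ1 ψ) {L : ℝ} (hL : 0 < L) {M : ℕ} (hM : Real.exp (ξ1 * L) < M) (t : ℝ) :
    DP k ψ L t = pol M (cf k ψ L) t := by
  unfold DP pol
  rw [tsum_eq_sum (s := Finset.range M)]
  · refine Finset.sum_congr rfl fun n _ => ?_
    rcases Nat.eq_zero_or_pos n with h0 | h0
    · subst h0
      rw [cf_zero, dk_zero]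
      simp
    · have hn0 : (0:ℝ) < n := by exact_mod_cast h0
      have hnc : (n : ℂ) ≠ 0 := by exact_mod_cast h0.ne'
      unfold cf
      rw [mul_assoc ((dk k n : ℂ) * ψ (Real.log n / L))]
      congr 1
      rw [neg_add, Complex.cpow_add _ _ hnc]
      congr 1
      · rw [Complex.ofReal_cpow hn0.le]
        push_cast
        rfl
      · rw [Complex.cpow_def_of_ne_zero hnc, ← Complex.ofReal_natCast, ← Complex.ofReal_log hn0.le]
        congr 1
        push_cast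
        ring
  · intro n hn
    rw [Finset.mem_range, not_lt] at hn
    by_contra hne
    have h1 : cf k ψ L n ≠ 0 := by
      intro h2
      apply hne
      unfold cf at h2
      rcases mul_eq_zero.1 h2 with h3 | h3
      · rw [h3, zero_mul]
      · exfalso
        rcases Nat.eq_zero_or_pos n with h0 | h0
        · subst h0
          apply hne
          rw [dk_zero]
          simp
        · have hn0 : (0:ℝ) < n := by exact_mod_cast h0
          have := Real.rpow_pos_of_pos hn0 (-(1 / 2 : ℝ))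
          exact this.ne' (by exact_mod_cast h3)
    have h2 := cf_supp h hL h1
    have h3 : (M : ℝ) ≤ n := by exact_mod_cast hn
    linarith

theorem cf_sq (L : ℝ) (n : ℕ) : cf k ψ L n * (starRingEnd ℂ) (cf k ψ L n) =
    (((dk k n : ℝ) * dk k n / n * ‖ψ (Real.log n / L)‖ ^ 2 : ℝ) : ℂ) := by
  rw [Complex.mul_conj, Complex.normSq_eq_norm_sq]
  congr 1
  unfold cf
  rw [norm_mul, norm_mul, Complex.norm_natCast, Complex.norm_real,
    Real.norm_of_nonneg (Real.rpow_nonneg (Nat.cast_nonneg n) _), mul_pow, mul_pow]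
  have h1 : ((n : ℝ) ^ (-(1 / 2 : ℝ))) ^ 2 = (n : ℝ)⁻¹ := by
    rw [← Real.rpow_natCast, ← Real.rpow_mul (Nat.cast_nonneg n)]
    norm_num
    rw [Real.rpow_neg_one]
  rw [h1]
  ring

theorem cf_diag (h : TF ξ1 ψ) {L : ℝ} (hL : 0 < L) {M : ℕ} (hM : Real.exp (ξ1 * L) < M) :
    ∑ n ∈ Finset.range M, cf k ψ L n * (starRingEnd ℂ) (cf k ψ L n) =
      ((∑' n : ℕ, (dk k n : ℝ) * dk k n / n * ‖ψ (Real.log n / L)‖ ^ 2 : ℝ) : ℂ) := by
  rw [tsum_eq_sum (s := Finset.range M)]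
  · rw [Complex.ofReal_sum]
    exact Finset.sum_congr rfl fun n _ => cf_sq L n
  · intro n hn
    rw [Finset.mem_range, not_lt] at hn
    have h1 : cf k ψ L n = 0 := by
      by_contra h1
      have h2 := cf_supp h hL h1
      have h3 : (M : ℝ) ≤ n := by exact_mod_cast hn
      linarith
    have h2 := cf_sq (k := k) (ψ := ψ) L n
    rw [h1, zero_mul] at h2
    exact_mod_cast h2.symm

theorem cf_bd (h : TF ξ1 ψ) (k : ℕ) : ∃ C : ℝ, 0 ≤ C ∧ ∀ (L : ℝ) (n : ℕ), ‖cf k ψ L n‖ ≤ C := by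
  obtain ⟨B, hB⟩ := h.cs.exists_bound_of_continuous h.cont
  have hB0 : 0 ≤ B := (norm_nonneg _).trans (hB 0)
  obtain ⟨D, hD0, hD⟩ := dk_bd k
  refine ⟨D * B, by positivity, fun L n => ?_⟩
  rcases Nat.eq_zero_or_pos n with h0 | h0
  · subst h0
    rw [cf_zero, norm_zero]
    positivity
  · have hn1 : (1:ℝ) ≤ n := by exact_mod_cast h0
    have hn0 : (0:ℝ) < n := by linarith
    unfold cf
    rw [norm_mul, norm_mul, Complex.norm_natCast, Complex.norm_real,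
      Real.norm_of_nonneg (Real.rpow_nonneg hn0.le _)]
    have h1 : (n : ℝ) ^ (1 / 4 : ℝ) * (n : ℝ) ^ (-(1 / 2 : ℝ)) ≤ 1 := by
      rw [← Real.rpow_add hn0]
      exact Real.rpow_le_one_of_one_le_of_nonpos hn1 (by norm_num)
    have h2 : 0 ≤ (n : ℝ) ^ (-(1 / 2 : ℝ)) := Real.rpow_nonneg hn0.le _
    calc (dk k n : ℝ) * ‖ψ (Real.log n / L)‖ * (n : ℝ) ^ (-(1 / 2 : ℝ))
        ≤ (D * (n : ℝ) ^ (1 / 4 : ℝ)) * B * (n : ℝ) ^ (-(1 / 2 : ℝ)) := by
          have := hD n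
          have := hB (Real.log n / L)
          gcongr
      _ = D * B * ((n : ℝ) ^ (1 / 4 : ℝ) * (n : ℝ) ^ (-(1 / 2 : ℝ))) := by ring
      _ ≤ D * B * 1 := by gcongr
      _ = _ := mul_one _

/-- the mass near the edge -/
def ed (k : ℕ) (ψ : ℝ → ℂ) : ℝ := ak k * ∫ x : ℝ, Pool.Agent.H306R2.gd ((k:ℝ) * k) x * ‖ψ x‖ ^ 2

theorem edge_mean (hk : 1 ≤ k) (h : TF ξ1 ψ) (hξ : 0 ≤ ξ1) {u : ℝ} (hu : ξ1 < u) {ε : ℝ}
    (hε : 0 < ε) :
    ∀ᶠ T : ℝ in atTop, ∀ U : ℝ, Adm T U → T ^ u ≤ U →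
      |SS k ψ T U - √Real.pi * (U * Real.log T ^ (k ^ 2)) * ed k ψ| ≤
        ε * (U * Real.log T ^ (k ^ 2)) := by
  obtain ⟨C, hC0, hC⟩ := cf_bd h k
  have hpi : 0 < √Real.pi := Real.sqrt_pos.2 Real.pi_pos
  have l1 := off_lim (√Real.pi * (4 * (2 * C) ^ 2)) (2 * ξ1) (2 * (u - ξ1)) (by linarith)
  have l2 := (Pool.Agent.W182.KO.diag_real hk (fun x => ‖ψ x‖ ^ 2) (by
    have := h.cont
    fun_prop) ξ1 hξ (fun x hx => by
      rcases hx.lt_or_eq with hx | hx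
      · rw [h.sp _ hx, norm_zero]
        norm_num
      · have h1 : ψ x = 0 := by
          have h2 : Tendsto ψ (𝓝[>] x) (𝓝 (ψ x)) := (h.cont.tendsto x).mono_left nhdsWithin_le_nhds
          refine tendsto_nhds_unique h2 (tendsto_const_nhds.congr' ?_)
          filter_upwards [self_mem_nhdsWithin] with y hy
          exact (h.sp _ (by rw [hx]; exact hy)).symm
        rw [h1, norm_zero]
        norm_num)).comp Real.tendsto_log_atTop
  rw [← Q80.VS.ak_eq] at l2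
  have l3 := (tendsto_iff_norm_sub_tendsto_zero.1 l2).eventually
    (gt_mem_nhds (show 0 < ε / (2 * √Real.pi) by positivity))
  filter_upwards [l1.eventually (gt_mem_nhds (show 0 < ε / 2 by positivity)), l3,
    eventually_ge_atTop 4] with T g1 g2 hT U hA hUu
  have hT0 : 0 < T := by linarith
  have hT1 : 1 ≤ T := by linarith
  have hL1 : 1 ≤ Real.log T := log_one hT
  set L := Real.log T with hL
  have hL0 : 0 < L := by linarith
  have hU := hA.pos
  set X : ℝ := Real.exp (ξ1 * L) with hX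
  have hXT : X = T ^ ξ1 := by rw [hX, mul_comm, hL, ← Real.rpow_def_of_pos hT0]
  have hX1 : 1 ≤ X := by rw [hXT]; exact Real.one_le_rpow hT1 hξ
  have hX0 : 0 < X := by linarith
  set M : ℕ := ⌊X⌋₊ + 1 with hM
  have hXM : X < M := by rw [hM]; push_cast; exact Nat.lt_floor_add_one _
  have hMX : (M : ℝ) ≤ 2 * X := by
    have := Nat.floor_le hX0.le
    rw [hM]; push_cast; linarith
  have hmv := mean (X := X) hU T M (cf_zero (k := k) (ψ := ψ) L) (cf_zero (k := k) (ψ := ψ) L)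
    (fun m hm => cf_supp h hL0 hm) hX0
  have e1 : ∫ t : ℝ, pol M (cf k ψ L) t * (starRingEnd ℂ) (pol M (cf k ψ L) t) * (wt T U t : ℂ) =
      ((SS k ψ T U : ℝ) : ℂ) := by
    unfold SS
    rw [← integral_complex_ofReal]
    refine integral_congr_ae (Eventually.of_forall fun t => ?_)
    simp only
    rw [← DP_pol h hL0 hXM, Complex.mul_conj, Complex.normSq_eq_norm_sq]
    push_cast
    rfl
  rw [e1, cf_diag h hL0 hXM, ← Complex.ofReal_mul, ← Complex.ofReal_sub, Complex.norm_real,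
    Real.norm_eq_abs] at hmv
  set D : ℝ := ∑' n : ℕ, (dk k n : ℝ) * dk k n / n * ‖ψ (Real.log n / L)‖ ^ 2 with hD
  have hsum : ∑ m ∈ Finset.range M, ‖cf k ψ L m‖ ≤ M * C := by
    refine (Finset.sum_le_sum fun m _ => hC L m).trans (le_of_eq ?_)
    rw [Finset.sum_const, Finset.card_range, nsmul_eq_mul]
  have hoff : (U * √Real.pi * Real.exp (-(U ^ 2 / (16 * X ^ 2)))) *
      ((∑ m ∈ Finset.range M, ‖cf k ψ L m‖) * ∑ n ∈ Finset.range M, ‖cf k ψ L n‖) ≤
      (ε / 2) * U := by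
    have h3 : T ^ (2 * (u - ξ1)) / 16 ≤ U ^ 2 / (16 * X ^ 2) := by
      rw [hXT, show 2 * (u - ξ1) = (u + u) - (ξ1 + ξ1) by ring,
        Real.rpow_sub hT0, Real.rpow_add hT0, Real.rpow_add hT0, div_div, ← sq, ← sq, mul_comm (16:ℝ)]
      gcongr
    have h4 : Real.exp (-(U ^ 2 / (16 * X ^ 2))) ≤ Real.exp (-(T ^ (2 * (u - ξ1)) / 16)) := by
      apply Real.exp_le_exp.2
      linarith
    have h5 : 0 ≤ ∑ m ∈ Finset.range M, ‖cf k ψ L m‖ := Finset.sum_nonneg fun _ _ => norm_nonneg _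
    have h6 : (∑ m ∈ Finset.range M, ‖cf k ψ L m‖) * ∑ n ∈ Finset.range M, ‖cf k ψ L n‖ ≤
        (2 * X * C) * (2 * X * C) := by
      have h7 : (M : ℝ) * C ≤ 2 * X * C := by gcongr
      gcongr <;> exact hsum.trans h7
    have h7 : T ^ (2 * ξ1) = X * X := by
      rw [hXT, ← Real.rpow_add hT0]
      congr 1; ring
    calc _ ≤ (U * √Real.pi * Real.exp (-(T ^ (2 * (u - ξ1)) / 16))) * ((2 * X * C) * (2 * X * C)) := by
          gcongr
      _ = ((√Real.pi * (2 * C) ^ 2) * (T ^ (2 * ξ1) * Real.exp (-(T ^ (2 * (u - ξ1)) / 16)))) * U := by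
          rw [h7]; ring
      _ ≤ ((√Real.pi * (4 * (2 * C) ^ 2)) * (T ^ (2 * ξ1) * Real.exp (-(T ^ (2 * (u - ξ1)) / 16)))) * U := by
          have : (2 * C) ^ 2 ≤ 4 * (2 * C) ^ 2 := by nlinarith [sq_nonneg (2 * C)]
          gcongr
      _ ≤ (ε / 2) * U := by gcongr
  have hk2 : L ^ (((k:ℕ):ℝ) ^ 2) = L ^ (k ^ 2) := by
    rw [← Real.rpow_natCast L (k ^ 2)]
    push_cast
    rfl
  have hLk : 1 ≤ L ^ (k ^ 2) := one_le_pow₀ hL1
  have hdiag : |D - L ^ (k ^ 2) * ed k ψ| ≤ ε / (2 * √Real.pi) * L ^ (k ^ 2) := by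
    simp only [Function.comp] at g2
    rw [hk2, Real.norm_eq_abs] at g2
    have e3 : D - L ^ (k ^ 2) * ed k ψ = (D / L ^ (k ^ 2) - ed k ψ) * L ^ (k ^ 2) := by
      field_simp
    rw [e3, abs_mul, abs_of_pos (show 0 < L ^ (k ^ 2) by positivity)]
    exact mul_le_mul_of_nonneg_right g2.le (by positivity)
  have e4 : SS k ψ T U - √Real.pi * (U * L ^ (k ^ 2)) * ed k ψ =
      (SS k ψ T U - U * √Real.pi * D) + U * √Real.pi * (D - L ^ (k ^ 2) * ed k ψ) := by ring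
  rw [e4]
  refine (abs_add_le _ _).trans ?_
  have h8 := hmv.trans hoff
  have h9 : |U * √Real.pi * (D - L ^ (k ^ 2) * ed k ψ)| ≤ ε / 2 * (U * L ^ (k ^ 2)) := by
    rw [abs_mul, abs_of_pos (show 0 < U * √Real.pi by positivity)]
    calc U * √Real.pi * |D - L ^ (k ^ 2) * ed k ψ| ≤
        U * √Real.pi * (ε / (2 * √Real.pi) * L ^ (k ^ 2)) := by gcongr
      _ = _ := by field_simp
  have h10 : ε / 2 * U ≤ ε / 2 * (U * L ^ (k ^ 2)) := by
    have : U ≤ U * L ^ (k ^ 2) := by nlinarith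
    gcongr
  linarith

end

end Q80.DC
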