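import Pool.Agent.Q80.DC.Fi

set_option autoImplicit false

/-! The order of magnitude of the moment and the decay off the line. -/

namespace Q80.DC

open MeasureTheory Filter Topology Set
open Q97.MM Q80.SP
open Q80.VS (ak ak_pos)

noncomputable section

variable {k : ℕ} {u : ℝ}

theorem M0_nonneg (k : ℕ) (T U : ℝ) : 0 ≤ M0 k T U :=
  integral_nonneg fun t => mul_nonneg (by positivity) (wt_pos _ _ _).le

theorem cosh_low {y : ℝ} (hy : 1 / 2 ≤ y) : Real.exp y / 16 ≤ Real.cosh y - 1 := by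
  have h1 : Real.exp (-y) ≤ 0.61 := by
    have h2 : Real.exp (-y) ≤ Real.exp (-(1 / 2)) := Real.exp_le_exp.2 (by linarith)
    have h3 : Real.exp (-(1 / 2 : ℝ)) ^ 2 = Real.exp (-1) := by
      rw [← Real.exp_nat_mul]
      norm_num
    have h4 : Real.exp (-1) < 0.3679 := by
      have := Real.exp_neg_one_lt_d9
      linarith
    have h5 : 0 < Real.exp (-(1 / 2 : ℝ)) := Real.exp_pos _
    have h6 : Real.exp (-(1 / 2 : ℝ)) ≤ 0.61 := by
      by_contra hcon
      push Not at hcon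
      nlinarith
    linarith
  have h2 : Real.exp y * Real.exp (-y) = 1 := by rw [← Real.exp_add]; simp
  have h3 := Real.exp_pos y
  have h4 := Real.exp_pos (-y)
  rw [Real.cosh_eq]
  have h5 : (Real.exp y + Real.exp (-y)) / 2 - 1 = Real.exp y * (1 - Real.exp (-y)) ^ 2 / 2 := by
    have : Real.exp y * (1 - Real.exp (-y)) ^ 2 = Real.exp y - 2 * (Real.exp y * Real.exp (-y)) +
      (Real.exp y * Real.exp (-y)) * Real.exp (-y) := by ring
    rw [this, h2]
    ring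
  rw [h5]
  have h6 : 1 / 8 ≤ (1 - Real.exp (-y)) ^ 2 := by nlinarith
  nlinarith

theorem EE_low (hk : 1 ≤ k) {θ : ℝ} (h0 : 0 < θ) (hθ : 2 * θ ≤ k / 2) {a : ℝ} (ha : 1 ≤ a) :
    (Real.exp (-(2 * θ)) / 16 * (θ ^ (k ^ 2 - 1 + 1) / ((k ^ 2 - 1 + 1 : ℕ) * (k ^ 2 - 1).factorial))) *
      (a ^ (k ^ 2 - 1 + 1))⁻¹ ≤ EE k θ (Gf k a) (Gf k a k) := by
  have hk1 : (1:ℝ) ≤ k := by exact_mod_cast hk
  have ha0 : 0 < a := by linarith
  have hpt : ∀ x ∈ Icc (0:ℝ) θ, gk k x * (Real.exp (-(2 * a * x)) / 16) ≤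
      gk k x * (Gf k a (2 * x) - Gf k a k) := by
    intro x hx
    refine mul_le_mul_of_nonneg_left ?_ (gk_nonneg k hx.1)
    rw [Gf_cosh, Gf_cosh, sub_self, mul_zero, Real.cosh_zero]
    have h1 : 1 / 2 ≤ a * (k - 2 * x) := by nlinarith [hx.2]
    have h2 := cosh_low h1
    have h3 := Real.exp_pos (-(a * (k:ℝ)))
    have h4 : Real.exp (-(2 * a * x)) = Real.exp (-(a * k)) * Real.exp (a * (k - 2 * x)) := by
      rw [← Real.exp_add]
      congr 1; ring
    rw [h4]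
    nlinarith
  have hc1 : Continuous (fun x => gk k x * (Real.exp (-(2 * a * x)) / 16)) := by
    have := gk_cont k
    fun_prop
  have hc2 : Continuous (fun x => gk k x * (Gf k a (2 * x) - Gf k a k)) := by
    have := gk_cont k
    have := Gf_cont (k := k) a
    fun_prop
  have i1 : ∫ x in (0:ℝ)..θ, gk k x * (Real.exp (-(2 * a * x)) / 16) ≤ EE k θ (Gf k a) (Gf k a k) :=
    intervalIntegral.integral_mono_on h0.le (hc1.intervalIntegrable _ _)
      (hc2.intervalIntegrable _ _) hpt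
  refine le_trans ?_ i1
  have hb : θ / a ≤ θ := div_le_self h0.le ha
  have hb0 : 0 ≤ θ / a := by positivity
  have i2 : ∫ x in (0:ℝ)..(θ / a), gk k x * (Real.exp (-(2 * a * x)) / 16) ≤
      ∫ x in (0:ℝ)..θ, gk k x * (Real.exp (-(2 * a * x)) / 16) := by
    rw [intervalIntegral.integral_of_le hb0, intervalIntegral.integral_of_le h0.le]
    refine setIntegral_mono_set ?_ ?_ (Ioc_subset_Ioc_right hb).eventuallyLE
    · exact (hc1.integrableOn_Icc (a := 0) (b := θ)).mono_set Ioc_subset_Icc_self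
    · rw [EventuallyLE, ae_restrict_iff' measurableSet_Ioc]
      exact Eventually.of_forall fun x hx => mul_nonneg (gk_nonneg k hx.1.le) (by positivity)
  refine le_trans ?_ i2
  have hc3 : Continuous (fun x => gk k x * (Real.exp (-(2 * θ)) / 16)) := by
    have := gk_cont k
    fun_prop
  have i3 : ∫ x in (0:ℝ)..(θ / a), gk k x * (Real.exp (-(2 * θ)) / 16) ≤
      ∫ x in (0:ℝ)..(θ / a), gk k x * (Real.exp (-(2 * a * x)) / 16) := by
    refine intervalIntegral.integral_mono_on hb0 (hc3.intervalIntegrable _ _)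
      (hc1.intervalIntegrable _ _) fun x hx => ?_
    refine mul_le_mul_of_nonneg_left ?_ (gk_nonneg k hx.1)
    have h1 : a * x ≤ θ := by
      have := (le_div_iff₀ ha0).1 hx.2
      linarith
    have h2 : Real.exp (-(2 * θ)) ≤ Real.exp (-(2 * a * x)) := Real.exp_le_exp.2 (by nlinarith)
    linarith
  refine le_trans (le_of_eq ?_) i3
  rw [intervalIntegral.integral_mul_const]
  unfold gk
  rw [intervalIntegral.integral_div, integral_pow]
  have : (0:ℝ) ^ (k ^ 2 - 1 + 1) = 0 := zero_pow (by omega)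
  rw [this, sub_zero, div_pow]
  push_cast
  field_simp

theorem order_iff (hk : 1 ≤ k) (hu : 0 < u) {T U : ℕ → ℝ} (hT : Tendsto T atTop atTop)
    (hU1 : ∀ j, T j ^ u ≤ U j) (hU2 : ∀ j, U j ≤ T j / Real.log (T j)) :
    List.TFAE [
      ∃ C : ℝ, ∀ᶠ j in atTop, M0 k (T j) (U j) ≤ C * NN k (T j) (U j),
      ∃ a θ δ : ℝ, 0 ≤ θ ∧ θ < u ∧ 2 * θ < k ∧ 0 < δ ∧ ∀ᶠ j in atTop,
        (Gf k a (2 * θ) + δ) * M0 k (T j) (U j) ≤ Ja k (T j) (U j) a,
      ∃ c : ℝ, 0 < c ∧ ∀ a : ℝ, 1 ≤ a → ∀ᶠ j in atTop,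
        c * (a ^ (k ^ 2))⁻¹ * M0 k (T j) (U j) ≤ Ja k (T j) (U j) a] := by
  have hk1 : (1:ℝ) ≤ k := by exact_mod_cast hk
  have hk2 : k ^ 2 - 1 + 1 = k ^ 2 := Nat.sub_add_cancel (Nat.one_le_pow _ _ hk)
  have hak := ak_pos hk
  have hpi : 0 < √Real.pi := Real.sqrt_pos.2 Real.pi_pos
  set θ : ℝ := min u (k / 2) / 2 with hθ
  have hm1 : min u ((k:ℝ) / 2) ≤ u := min_le_left _ _
  have hm2 : min u ((k:ℝ) / 2) ≤ k / 2 := min_le_right _ _
  have hm0 : 0 < min u ((k:ℝ) / 2) := lt_min hu (by linarith)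
  have h0 : 0 < θ := by rw [hθ]; linarith
  have hθu : θ < u := by rw [hθ]; linarith
  have hθk : 2 * θ ≤ k / 2 := by rw [hθ]; linarith
  have hθk' : 2 * θ < k := by linarith
  have hN : ∀ᶠ j in atTop, 0 < NN k (T j) (U j) := by
    filter_upwards [hT.eventually_ge_atTop 3] with j hj
    have h1 : 1 ≤ U j := (Real.one_le_rpow (by linarith) hu.le).trans (hU1 j)
    exact NN_pos ⟨hj, h1, hU2 j⟩
  tfae_have 1 → 3 := by
    rintro ⟨C, hC⟩
    set C' : ℝ := max C 1 with hC'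
    have hC'0 : 0 < C' := lt_of_lt_of_le one_pos (le_max_right _ _)
    set c1 : ℝ := Real.exp (-(2 * θ)) / 16 *
      (θ ^ (k ^ 2 - 1 + 1) / ((k ^ 2 - 1 + 1 : ℕ) * (k ^ 2 - 1).factorial)) with hc1
    have hc10 : 0 < c1 := by
      rw [hc1]
      have : (0:ℝ) < ((k ^ 2 - 1 + 1 : ℕ) : ℝ) := by
        have : 0 < k ^ 2 - 1 + 1 := Nat.succ_pos _
        exact_mod_cast this
      positivity
    refine ⟨c1 * (√Real.pi * ak k) / C', by positivity, fun a ha => ?_⟩
    have hE := EE_low hk h0 hθk ha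
    rw [← hc1, hk2] at hE
    have ha0 : 0 < a := by linarith
    have hap : 0 < (a ^ (k ^ 2))⁻¹ := by positivity
    set ε : ℝ := c1 * (√Real.pi * ak k) / C' * (a ^ (k ^ 2))⁻¹ with hε
    have hε0 : 0 < ε := by positivity
    obtain ⟨T₀, hT₀⟩ := off_line hk hu a h0.le hθu hθk' hε0
    filter_upwards [hT.eventually_ge_atTop T₀, hC, hN] with j q1 q2 q3
    have q4 := (hT₀ _ q1 _ (hU1 j) (hU2 j)).1
    have hM := M0_nonneg k (T j) (U j)
    have q5 : M0 k (T j) (U j) ≤ C' * NN k (T j) (U j) :=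
      q2.trans (mul_le_mul_of_nonneg_right (le_max_left _ _) q3.le)
    have q6 : 0 ≤ Gf k a k := by unfold Gf; positivity
    have q7 : 2 * (ε * M0 k (T j) (U j)) ≤ (2 * EE k θ (Gf k a) (Gf k a k)) * DD k (T j) (U j) := by
      have r1 : ε * M0 k (T j) (U j) ≤ (c1 * (a ^ (k ^ 2))⁻¹) * DD k (T j) (U j) := by
        calc ε * M0 k (T j) (U j) ≤ ε * (C' * NN k (T j) (U j)) := by gcongr
          _ = (c1 * (a ^ (k ^ 2))⁻¹) * DD k (T j) (U j) := by
            rw [hε]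
            unfold DD
            field_simp
      have r2 : 0 ≤ DD k (T j) (U j) := by unfold DD; positivity
      have r3 : (c1 * (a ^ (k ^ 2))⁻¹) * DD k (T j) (U j) ≤
          EE k θ (Gf k a) (Gf k a k) * DD k (T j) (U j) := mul_le_mul_of_nonneg_right hE r2
      linarith
    have q8 : 0 ≤ Gf k a k * M0 k (T j) (U j) := mul_nonneg q6 hM
    nlinarith
  tfae_have 3 → 2 := by
    rintro ⟨c, hc, h⟩
    have hlim : Tendsto (fun a : ℝ => a ^ (k ^ 2) * Real.exp (-((2 * θ) * a))) atTop (𝓝 0) := by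
      have h1 := (Real.tendsto_pow_mul_exp_neg_atTop_nhds_zero (k ^ 2)).comp
        (tendsto_id.const_mul_atTop (show 0 < 2 * θ by linarith))
      have h2 := h1.const_mul (((2 * θ) ^ (k ^ 2))⁻¹)
      rw [mul_zero] at h2
      refine h2.congr fun a => ?_
      have hp : (2 * θ) ^ (k ^ 2) ≠ 0 := by positivity
      show ((2 * θ) ^ (k ^ 2))⁻¹ * ((2 * θ * a) ^ (k ^ 2) * Real.exp (-(2 * θ * a))) = _
      rw [mul_pow (2 * θ) a, ← mul_assoc, ← mul_assoc, inv_mul_cancel₀ hp, one_mul]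
    obtain ⟨a, q1, q2⟩ := ((hlim.eventually (gt_mem_nhds (show 0 < c / 2 by positivity))).and
      (eventually_ge_atTop 1)).exists
    have ha0 : 0 < a := by linarith
    refine ⟨a, θ, c / 2 * (a ^ (k ^ 2))⁻¹, h0.le, hθu, hθk', by positivity, ?_⟩
    filter_upwards [h a q2] with j hj
    refine le_trans ?_ hj
    refine mul_le_mul_of_nonneg_right ?_ (M0_nonneg _ _ _)
    have q3 : Gf k a (2 * θ) ≤ Real.exp (-((2 * θ) * a)) := by
      unfold Gf
      have r1 : Real.exp (-(a * (2 * k - 2 * θ))) ≤ Real.exp (-((2 * θ) * a)) :=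
        Real.exp_le_exp.2 (by nlinarith)
      have r2 : -(a * (2 * θ)) = -((2 * θ) * a) := by ring
      rw [r2]
      linarith
    have q4 : Real.exp (-((2 * θ) * a)) ≤ c / 2 * (a ^ (k ^ 2))⁻¹ := by
      rw [← div_eq_mul_inv, le_div_iff₀ (by positivity), mul_comm]
      exact q1.le
    have e1 : c * (a ^ (k ^ 2))⁻¹ = c / 2 * (a ^ (k ^ 2))⁻¹ + c / 2 * (a ^ (k ^ 2))⁻¹ := by ring
    rw [e1]
    linarith
  tfae_have 2 → 1 := by
    rintro ⟨a, θ', δ, r0, r1, r2, hδ, h⟩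
    obtain ⟨T₀, hT₀⟩ := off_line hk hu a r0 r1 r2 (half_pos hδ)
    refine ⟨4 * EE k θ' (Gf k a) (Gf k a (2 * θ')) * (√Real.pi * ak k) / δ, ?_⟩
    filter_upwards [hT.eventually_ge_atTop T₀, h] with j q1 q2
    have q3 := (hT₀ _ q1 _ (hU1 j) (hU2 j)).2
    have q4 : δ / 2 * M0 k (T j) (U j) ≤
        (2 * EE k θ' (Gf k a) (Gf k a (2 * θ'))) * DD k (T j) (U j) := by linarith
    have e1 : 4 * EE k θ' (Gf k a) (Gf k a (2 * θ')) * (√Real.pi * ak k) / δ * NN k (T j) (U j) =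
        ((2 * EE k θ' (Gf k a) (Gf k a (2 * θ'))) * DD k (T j) (U j)) * (2 / δ) := by
      unfold DD
      field_simp
      ring
    rw [e1]
    calc M0 k (T j) (U j) = (δ / 2 * M0 k (T j) (U j)) * (2 / δ) := by field_simp
      _ ≤ _ := by gcongr
  tfae_finish

end

end Q80.DC
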