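import Pool.Agent.Q80.DC.Sq

set_option autoImplicit false

/-! Two-sided bounds for the moments off the line and for the correlations. -/

namespace Q80.DC

open MeasureTheory Filter Topology Set
open Pool.Agent.W182.KO (TF)
open Q97.MM Q80.SP
open Q80.VS (ak ak_pos)
open scoped ContDiff

noncomputable section

variable {k : ℕ} {u lam : ℝ} {ν : Measure ℝ}

/-- the symmetric exponential -/
def Gf (k : ℕ) (a v : ℝ) : ℝ := (Real.exp (-(a * v)) + Real.exp (-(a * (2 * k - v)))) / 2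

/-- the symmetric cosine -/
def Gc (k : ℕ) (h v : ℝ) : ℝ := Real.cos (h * (v - k) / 2)

theorem Gf_cont (a : ℝ) : Continuous (Gf k a) := by unfold Gf; fun_prop

theorem Gc_cont (h : ℝ) : Continuous (Gc k h) := by unfold Gc; fun_prop

theorem Gf_cosh (a v : ℝ) : Gf k a v = Real.exp (-(a * k)) * Real.cosh (a * (k - v)) := by
  unfold Gf
  rw [Real.cosh_eq, mul_div_assoc', mul_add, ← Real.exp_add, ← Real.exp_add]
  congr 2
  · congr 1; ring
  · congr 1; ring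

theorem Gf_sym (a v : ℝ) : Gf k a (2 * k - v) = Gf k a v := by
  unfold Gf
  rw [show 2 * (k:ℝ) - (2 * k - v) = v by ring]
  ring

theorem Gc_sym (h v : ℝ) : Gc k h (2 * k - v) = Gc k h v := by
  unfold Gc
  rw [← Real.cos_neg]
  congr 1
  ring

theorem Gf_mono (a : ℝ) {v w : ℝ} (h : |(k:ℝ) - w| ≤ |k - v|) : Gf k a w ≤ Gf k a v := by
  rw [Gf_cosh, Gf_cosh]
  refine mul_le_mul_of_nonneg_left ?_ (Real.exp_pos _).le
  rw [Real.cosh_le_cosh, abs_mul, abs_mul]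
  exact mul_le_mul_of_nonneg_left h (abs_nonneg _)

theorem Gc_mono {h : ℝ} (hh : |k * h| ≤ 2 * Real.pi) {v w : ℝ} (h1 : |(k:ℝ) - w| ≤ |k - v|)
    (h2 : |(k:ℝ) - v| ≤ k) : Gc k h v ≤ Gc k h w := by
  unfold Gc
  rw [← Real.cos_abs (h * (v - k) / 2), ← Real.cos_abs (h * (w - k) / 2)]
  have e : ∀ x : ℝ, |h * (x - k) / 2| = |h| * |(k:ℝ) - x| / 2 := by
    intro x
    rw [abs_div, abs_mul, abs_sub_comm x, abs_two]
  rw [e, e]
  have h3 : |h| * |(k:ℝ) - w| ≤ |h| * |(k:ℝ) - v| := mul_le_mul_of_nonneg_left h1 (abs_nonneg _)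
  have h4 : |h| * |(k:ℝ) - v| ≤ |h| * k := mul_le_mul_of_nonneg_left h2 (abs_nonneg _)
  have h5 : |h| * k ≤ 2 * Real.pi := by
    rw [abs_mul, abs_of_nonneg (Nat.cast_nonneg k), mul_comm] at hh
    exact hh
  refine Real.cos_le_cos_of_nonneg_of_le_pi (by positivity) ?_ ?_
  · linarith
  · linarith

theorem Lm.rp_exp (h : Lm k ν u lam) (a : ℝ) : Rp k ν u lam (Gf k a) := by
  have h1 := h.rp_sq (r := fun x => Real.exp (-(a * x))) (by fun_prop)
  have h2 := h.rp_sq (r := fun x => Real.exp (-(a * (k - x)))) (by fun_prop)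
  have h3 := Rp.add h (h1.smul (1 / 2)) (h2.smul (1 / 2))
  convert h3 using 2 with v
  unfold Gf
  rw [← Real.exp_nat_mul, ← Real.exp_nat_mul]
  have e1 : ((2:ℕ) : ℝ) * -(a * (v / 2)) = -(a * v) := by push_cast; ring
  have e2 : ((2:ℕ) : ℝ) * -(a * (k - v / 2)) = -(a * (2 * k - v)) := by push_cast; ring
  rw [e1, e2]
  ring

theorem Lm.rp_cos (h : Lm k ν u lam) (η : ℝ) : Rp k ν u lam (Gc k η) := by
  have h1 := h.rp_sq (r := fun x => Real.cos (η * (x - k / 2) / 2)) (by fun_prop)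
  have h3 := Rp.add h (h1.smul 2) (h.rp_const (-1))
  convert h3 using 2 with v
  unfold Gc
  have e1 : η * (v - k) / 2 = 2 * (η * (v / 2 - k / 2) / 2) := by ring
  rw [e1, Real.cos_two_mul]
  ring

/-- the edge integrals -/
def EE (k : ℕ) (θ : ℝ) (G : ℝ → ℝ) (c : ℝ) : ℝ := ∫ x in (0:ℝ)..θ, gk k x * (G (2 * x) - c)

theorem exp_sym (h : Lm k ν u lam) (a : ℝ) : ∫ v, Real.exp (-(a * v)) ∂ν = ∫ v, Gf k a v ∂ν := by
  have c1 : Continuous (fun v : ℝ => Real.exp (-(a * v))) := by fun_prop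
  have c2 : Continuous (fun v : ℝ => Real.exp (-(a * (2 * k - v)))) := by fun_prop
  have h1 := h.refl c1
  unfold Gf
  rw [integral_div, integral_add (h.cint c1) (h.cint c2), h1]
  ring

theorem lim_exp (h : Lm k ν u lam) (a : ℝ) {θ : ℝ} (h0 : 0 ≤ θ) (hu : θ < u) (hk : 2 * θ < k) :
    Gf k a k + 2 * lam * EE k θ (Gf k a) (Gf k a k) ≤ ∫ v, Real.exp (-(a * v)) ∂ν ∧
    ∫ v, Real.exp (-(a * v)) ∂ν ≤ Gf k a (2 * θ) + 2 * lam * EE k θ (Gf k a) (Gf k a (2 * θ)) := by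
  rw [exp_sym h]
  refine ⟨h.lower (h.rp_exp a) (Gf_sym a) h0 hu hk fun v h1 h2 => ?_,
    h.upper (h.rp_exp a) (Gf_sym a) h0 hu hk (fun v h1 h2 => ?_) fun v h1 h2 => ?_⟩
  · refine Gf_mono a ?_
    rw [sub_self, abs_zero]
    exact abs_nonneg _
  · refine Gf_mono a ?_
    rw [abs_of_pos (by linarith), abs_of_pos (by linarith)]
    linarith
  · refine Gf_mono a ?_
    rw [abs_of_pos (show (0:ℝ) < k - 2 * θ by linarith), abs_le]
    constructor <;> linarith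

theorem lim_cos (h : Lm k ν u lam) {η : ℝ} (hη : |k * η| ≤ 2 * Real.pi) {θ : ℝ} (h0 : 0 ≤ θ)
    (hu : θ < u) (hk : 2 * θ < k) :
    Gc k η (2 * θ) + 2 * lam * EE k θ (Gc k η) (Gc k η (2 * θ)) ≤ ∫ v, Gc k η v ∂ν ∧
    ∫ v, Gc k η v ∂ν ≤ 1 + 2 * lam * EE k θ (Gc k η) 1 := by
  have hk0 : (0:ℝ) ≤ k := Nat.cast_nonneg k
  have hR : Rp k ν u lam (fun v => -Gc k η v) := by
    simpa using (h.rp_cos η).smul (-1)
  have hs : ∀ v, (fun v => -Gc k η v) (2 * k - v) = (fun v => -Gc k η v) v := fun v => by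
    simp only
    rw [Gc_sym]
  have e1 : Gc k η k = 1 := by
    unfold Gc
    rw [sub_self, mul_zero, zero_div, Real.cos_zero]
  have hneg : ∀ c : ℝ, ∫ x in (0:ℝ)..θ, gk k x * ((-Gc k η (2 * x)) - (-c)) =
      -EE k θ (Gc k η) c := by
    intro c
    unfold EE
    rw [← intervalIntegral.integral_neg]
    refine intervalIntegral.integral_congr fun x _ => ?_
    ring
  constructor
  · have q := h.upper hR hs h0 hu hk (fun v h1 h2 => ?_) fun v h1 h2 => ?_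
    · rw [hneg, integral_neg] at q
      linarith
    · refine neg_le_neg (Gc_mono hη ?_ ?_)
      · rw [abs_of_pos (show (0:ℝ) < k - 2 * θ by linarith), abs_of_pos (by linarith)]
        linarith
      · rw [abs_of_pos (by linarith)]
        linarith
    · refine neg_le_neg (Gc_mono hη ?_ ?_)
      · rw [abs_of_pos (show (0:ℝ) < k - 2 * θ by linarith), abs_le]
        constructor <;> linarith
      · rw [abs_of_pos (by linarith)]
        linarith
  · have q := h.lower hR hs h0 hu hk (fun v h1 h2 => ?_)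
    · rw [e1, hneg, integral_neg] at q
      linarith
    · refine neg_le_neg (Gc_mono hη ?_ ?_)
      · rw [sub_self, abs_zero]
        exact abs_nonneg _
      · rw [abs_le]
        constructor <;> linarith

theorem fr_re (h : Lm k ν u lam) (η : ℝ) :
    (Complex.exp (((k * η / 2 : ℝ) : ℂ) * Complex.I) * fr ν η).re = ∫ v, Gc k η v ∂ν := by
  have := h.prob
  unfold fr
  rw [← integral_const_mul]
  have hi : Integrable (fun v : ℝ => Complex.exp (((k * η / 2 : ℝ) : ℂ) * Complex.I) *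
      Complex.exp (-((η * v / 2 : ℝ) : ℂ) * Complex.I)) ν := by
    refine (integrable_const (1 : ℝ)).mono' (by fun_prop) (Eventually.of_forall fun v => ?_)
    have e1 : -((η * v / 2 : ℝ) : ℂ) * Complex.I = ((-(η * v / 2) : ℝ) : ℂ) * Complex.I := by
      push_cast; ring
    rw [norm_mul, e1, Complex.norm_exp_ofReal_mul_I, Complex.norm_exp_ofReal_mul_I, one_mul]
  have h1 := (Complex.reCLM.integral_comp_comm hi).symm
  simp only [Complex.reCLM_apply] at h1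
  rw [h1]
  refine integral_congr_ae (Eventually.of_forall fun v => ?_)
  simp only
  rw [← Complex.exp_add]
  have e2 : ((k * η / 2 : ℝ) : ℂ) * Complex.I + -((η * v / 2 : ℝ) : ℂ) * Complex.I =
      ((-(η * (v - k) / 2) : ℝ) : ℂ) * Complex.I := by
    push_cast
    ring
  rw [e2, Complex.exp_ofReal_mul_I_re, Real.cos_neg]
  rfl

/-- the diagonal -/
def DD (k : ℕ) (T U : ℝ) : ℝ := √Real.pi * ak k * NN k T U

/-- the general principle: a pair of inequalities in the limit gives a pair of inequalities for all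
large `T` -/
theorem transfer2 (hk : 1 ≤ k) (hu : 0 < u) {F : ℝ → ℝ → ℝ} {A B A' B' : ℝ}
    (hF : ∀ T U : ℕ → ℝ, Tendsto T atTop atTop → (∀ j, 1 ≤ U j ∧ U j ≤ T j / Real.log (T j)) →
      ∀ (ν : Measure ℝ) (lam : ℝ), Lm k ν u lam →
      (∀ h : ℝ, Tendsto (fun j => Cq k (T j) (U j) h) atTop (𝓝 (fr ν h))) →
      (∀ a : ℝ, Tendsto (fun j => Ja k (T j) (U j) a / Ja k (T j) (U j) 0) atTop
        (𝓝 (∫ v, Real.exp (-(a * v)) ∂ν))) →
      ∃ l : ℝ, Tendsto (fun j => F (T j) (U j) / M0 k (T j) (U j)) atTop (𝓝 l) ∧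
        A + B * lam ≤ l ∧ l ≤ A' + B' * lam)
    {ε : ℝ} (hε : 0 < ε) :
    ∃ T₀ : ℝ, ∀ T : ℝ, T₀ ≤ T → ∀ U : ℝ, T ^ u ≤ U → U ≤ T / Real.log T →
      (A - ε) * M0 k T U + B * DD k T U ≤ F T U ∧ F T U ≤ (A' + ε) * M0 k T U + B' * DD k T U := by
  by_contra hcon
  obtain ⟨T, U, hT, hU, hUu, hQ⟩ := seq_of_not hu hcon
  obtain ⟨φ, hφ, ν, lam, hL, h1, h2, h3, h4⟩ := seqLm hk hu hT hU hUu
  have hTs : Tendsto (fun j => T (φ j)) atTop atTop := hT.comp hφ.tendsto_atTop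
  obtain ⟨l, hl, hl1, hl2⟩ := hF (fun j => T (φ j)) (fun j => U (φ j)) hTs (fun j => hU (φ j)) ν lam
    hL h2 h3
  have e1 : ∀ᶠ j in atTop, (A - ε) + B * (√Real.pi * ak k * NN k (T (φ j)) (U (φ j)) /
      M0 k (T (φ j)) (U (φ j))) < F (T (φ j)) (U (φ j)) / M0 k (T (φ j)) (U (φ j)) := by
    have t1 : Tendsto (fun j => (A - ε) + B * (√Real.pi * ak k * NN k (T (φ j)) (U (φ j)) /
      M0 k (T (φ j)) (U (φ j)))) atTop (𝓝 ((A - ε) + B * lam)) := (h1.const_mul B).const_add _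
    exact t1.eventually_lt hl (by linarith)
  have e2 : ∀ᶠ j in atTop, F (T (φ j)) (U (φ j)) / M0 k (T (φ j)) (U (φ j)) < (A' + ε) +
      B' * (√Real.pi * ak k * NN k (T (φ j)) (U (φ j)) / M0 k (T (φ j)) (U (φ j))) := by
    have t1 : Tendsto (fun j => (A' + ε) + B' * (√Real.pi * ak k * NN k (T (φ j)) (U (φ j)) /
      M0 k (T (φ j)) (U (φ j)))) atTop (𝓝 ((A' + ε) + B' * lam)) := (h1.const_mul B').const_add _
    exact hl.eventually_lt t1 (by linarith)
  obtain ⟨j, q1, q2, q3⟩ := (e1.and (e2.and h4)).exists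
  apply hQ (φ j)
  have e3 : ∀ c b : ℝ, (c + b * (√Real.pi * ak k * NN k (T (φ j)) (U (φ j)) /
      M0 k (T (φ j)) (U (φ j)))) * M0 k (T (φ j)) (U (φ j)) =
      c * M0 k (T (φ j)) (U (φ j)) + b * DD k (T (φ j)) (U (φ j)) := by
    intro c b
    unfold DD
    field_simp
  have e4 : F (T (φ j)) (U (φ j)) / M0 k (T (φ j)) (U (φ j)) * M0 k (T (φ j)) (U (φ j)) =
      F (T (φ j)) (U (φ j)) := by field_simp
  constructor
  · rw [← e3, ← e4]
    exact (mul_le_mul_of_nonneg_right q1.le q3.le)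
  · rw [← e3, ← e4]
    exact (mul_le_mul_of_nonneg_right q2.le q3.le)

/-- bounds off the line -/
theorem off_line (hk : 1 ≤ k) (hu : 0 < u) (a : ℝ) {θ : ℝ} (h0 : 0 ≤ θ) (hθ : θ < u)
    (hθk : 2 * θ < k) {ε : ℝ} (hε : 0 < ε) :
    ∃ T₀ : ℝ, ∀ T : ℝ, T₀ ≤ T → ∀ U : ℝ, T ^ u ≤ U → U ≤ T / Real.log T →
      (Gf k a k - ε) * M0 k T U + (2 * EE k θ (Gf k a) (Gf k a k)) * DD k T U ≤ Ja k T U a ∧
      Ja k T U a ≤ (Gf k a (2 * θ) + ε) * M0 k T U +
        (2 * EE k θ (Gf k a) (Gf k a (2 * θ))) * DD k T U := by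
  refine transfer2 hk hu (F := fun T U => Ja k T U a) (fun T U hT hU ν lam hL h2 h3 => ?_) hε
  refine ⟨∫ v, Real.exp (-(a * v)) ∂ν, ?_, ?_, ?_⟩
  · have := h3 a
    refine this.congr fun j => ?_
    congr 1
    unfold Ja M0
    rw [zero_div, add_zero]
  · have := (lim_exp hL a h0 hθ hθk).1
    linarith
  · have := (lim_exp hL a h0 hθ hθk).2
    linarith

/-- bounds for the correlations -/
theorem corr (hk : 1 ≤ k) (hu : 0 < u) {η : ℝ} (hη : |k * η| ≤ 2 * Real.pi) {θ : ℝ} (h0 : 0 ≤ θ)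
    (hθ : θ < u) (hθk : 2 * θ < k) {ε : ℝ} (hε : 0 < ε) :
    ∃ T₀ : ℝ, ∀ T : ℝ, T₀ ≤ T → ∀ U : ℝ, T ^ u ≤ U → U ≤ T / Real.log T →
      (Gc k η (2 * θ) - ε) * M0 k T U + (2 * EE k θ (Gc k η) (Gc k η (2 * θ))) * DD k T U ≤
        (Complex.exp (((k * η / 2 : ℝ) : ℂ) * Complex.I) * CZ k T U (η / Real.log T)).re ∧
      (Complex.exp (((k * η / 2 : ℝ) : ℂ) * Complex.I) * CZ k T U (η / Real.log T)).re ≤
        (1 + ε) * M0 k T U + (2 * EE k θ (Gc k η) 1) * DD k T U := by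
  refine transfer2 hk hu (F := fun T U =>
    (Complex.exp (((k * η / 2 : ℝ) : ℂ) * Complex.I) * CZ k T U (η / Real.log T)).re)
    (fun T U hT hU ν lam hL h2 h3 => ?_) hε
  refine ⟨∫ v, Gc k η v ∂ν, ?_, ?_, ?_⟩
  · rw [← fr_re hL]
    have h4 := (Complex.continuous_re.tendsto _).comp ((h2 η).const_mul
      (Complex.exp (((k * η / 2 : ℝ) : ℂ) * Complex.I)))
    refine h4.congr fun j => ?_
    simp only [Function.comp]
    unfold Cq
    rw [← mul_div_assoc, Complex.div_ofReal_re]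
  · have := (lim_cos hL hη h0 hθ hθk).1
    linarith
  · have := (lim_cos hL hη h0 hθ hθk).2
    linarith

end

end Q80.DC
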