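import Pool.Agent.Q80.DC.Ed

set_option autoImplicit false

/-! Bounds for the integrals of symmetric functions against the limit measures. -/

namespace Q80.DC

open MeasureTheory Filter Topology Set
open Pool.Agent.W182.KO (TF)
open scoped ContDiff

noncomputable section

/-- the density near the edge -/
def gk (k : ℕ) (x : ℝ) : ℝ := x ^ (k ^ 2 - 1) / (k ^ 2 - 1).factorial

theorem gk_nonneg (k : ℕ) {x : ℝ} (hx : 0 ≤ x) : 0 ≤ gk k x := by unfold gk; positivity

theorem gk_cont (k : ℕ) : Continuous (gk k) := by unfold gk; fun_prop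

/-- what is known on the limit measures -/
structure Lm (k : ℕ) (ν : Measure ℝ) (u lam : ℝ) : Prop where
  prob : IsProbabilityMeasure ν
  supp : ∀ᵐ v ∂ν, v ∈ Icc 0 (2 * k : ℝ)
  sym : ν.map (fun v => 2 * (k : ℝ) - v) = ν
  nn : 0 ≤ lam
  ed : ∀ (ψ : ℝ → ℂ) (ξ1 : ℝ), TF ξ1 ψ → 0 ≤ ξ1 → ξ1 < u →
    ∫ v, ‖ψ (v / 2)‖ ^ 2 ∂ν = lam * ∫ x in Ioi (0:ℝ), gk k x * ‖ψ x‖ ^ 2

/-- the cut-off -/
def cu (a b x : ℝ) : ℝ := Real.smoothTransition ((b - x) / (b - a)) * Real.smoothTransition (x + 1)

theorem cu_nonneg (a b x : ℝ) : 0 ≤ cu a b x :=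
  mul_nonneg (Real.smoothTransition.nonneg _) (Real.smoothTransition.nonneg _)

theorem cu_le_one (a b x : ℝ) : cu a b x ≤ 1 :=
  mul_le_one₀ (Real.smoothTransition.le_one _) (Real.smoothTransition.nonneg _)
    (Real.smoothTransition.le_one _)

theorem cu_one {a b x : ℝ} (hab : a < b) (h0 : 0 ≤ x) (h : x ≤ a) : cu a b x = 1 := by
  unfold cu
  rw [Real.smoothTransition.one_of_one_le, Real.smoothTransition.one_of_one_le (by linarith), one_mul]
  rw [le_div_iff₀ (by linarith)]
  linarith

theorem cu_zero {a b x : ℝ} (hab : a < b) (h : b ≤ x) : cu a b x = 0 := by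
  unfold cu
  rw [Real.smoothTransition.zero_of_nonpos, zero_mul]
  exact div_nonpos_of_nonpos_of_nonneg (by linarith) (by linarith)

theorem cu_left {a b x : ℝ} (h : x ≤ -1) : cu a b x = 0 := by
  unfold cu
  rw [Real.smoothTransition.zero_of_nonpos (x := x + 1) (by linarith), mul_zero]

theorem cu_smooth (a b : ℝ) : ContDiff ℝ ∞ (cu a b) := by
  unfold cu
  exact (Real.smoothTransition.contDiff.comp (by fun_prop)).mul
    (Real.smoothTransition.contDiff.comp (by fun_prop))

/-- test functions with a cut-off -/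
theorem cu_TF {a b : ℝ} (hab : a < b) {r : ℝ → ℝ} (hr : ContDiff ℝ ∞ r) :
    TF b (fun x => ((r x * cu a b x : ℝ) : ℂ)) := by
  refine ⟨Complex.ofRealCLM.contDiff.comp (hr.mul (cu_smooth a b)), ?_, fun x hx => ?_⟩
  · refine HasCompactSupport.intro (isCompact_Icc (a := -1) (b := b)) fun x hx => ?_
    rw [mem_Icc, not_and_or, not_le, not_le] at hx
    rcases hx with hx | hx
    · rw [cu_left hx.le, mul_zero, Complex.ofReal_zero]
    · rw [cu_zero hab hx.le, mul_zero, Complex.ofReal_zero]
  · rw [cu_zero hab hx.le, mul_zero, Complex.ofReal_zero]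

variable {k : ℕ} {ν : Measure ℝ} {u lam : ℝ}

theorem Lm.cint (h : Lm k ν u lam) {f : ℝ → ℝ} (hf : Continuous f) : Integrable f ν := by
  have := h.prob
  obtain ⟨C, hC⟩ := (isCompact_Icc (a := (0:ℝ)) (b := 2 * k)).exists_bound_of_continuousOn
    hf.continuousOn
  refine (integrable_const C).mono' hf.aestronglyMeasurable ?_
  filter_upwards [h.supp] with v hv using hC v hv

theorem Lm.refl (h : Lm k ν u lam) {f : ℝ → ℝ} (hf : Continuous f) :
    ∫ v, f (2 * k - v) ∂ν = ∫ v, f v ∂ν := by
  have hm : Measurable (fun v : ℝ => 2 * (k : ℝ) - v) := by fun_prop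
  conv_rhs => rw [← h.sym]
  rw [integral_map hm.aemeasurable hf.aestronglyMeasurable]

theorem Lm.mono (h : Lm k ν u lam) {f g : ℝ → ℝ} (hf : Continuous f) (hg : Continuous g)
    (hfg : ∀ v ∈ Icc (0:ℝ) (2 * k), f v ≤ g v) : ∫ v, f v ∂ν ≤ ∫ v, g v ∂ν := by
  refine integral_mono_ae (h.cint hf) (h.cint hg) ?_
  filter_upwards [h.supp] with v hv using hfg v hv

/-- the edge integral of a function -/
def eI (k : ℕ) (a b : ℝ) (G : ℝ → ℝ) : ℝ := ∫ x in Ioi (0:ℝ), gk k x * (G (2 * x) * cu a b x ^ 2)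

theorem eI_int (k : ℕ) {a b : ℝ} (hab : a < b) {G : ℝ → ℝ} (hG : Continuous G) :
    IntegrableOn (fun x => gk k x * (G (2 * x) * cu a b x ^ 2)) (Ioi (0:ℝ)) := by
  have hc : Continuous (fun x => gk k x * (G (2 * x) * cu a b x ^ 2)) := by
    have h1 := gk_cont k
    have h2 := (cu_smooth a b).continuous
    fun_prop
  have hs : HasCompactSupport (fun x => gk k x * (G (2 * x) * cu a b x ^ 2)) := by
    refine HasCompactSupport.intro (isCompact_Icc (a := -1) (b := b)) fun x hx => ?_
    rw [mem_Icc, not_and_or, not_le, not_le] at hx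
    rcases hx with hx | hx
    · simp [cu_left hx.le]
    · simp [cu_zero hab hx.le]
  exact (hc.integrable_of_hasCompactSupport hs).integrableOn

theorem eI_sub (k : ℕ) {a b : ℝ} (hab : a < b) {G H : ℝ → ℝ} (hG : Continuous G) (hH : Continuous H) :
    eI k a b (fun v => G v - H v) = eI k a b G - eI k a b H := by
  unfold eI
  rw [← integral_sub (eI_int k hab hG) (eI_int k hab hH)]
  refine integral_congr_ae (Eventually.of_forall fun x => ?_)
  simp only
  ring

/-- the functions whose edge integrals are known -/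
def Rp (k : ℕ) (ν : Measure ℝ) (u lam : ℝ) (G : ℝ → ℝ) : Prop :=
  Continuous G ∧ ∀ a b : ℝ, 0 ≤ a → a < b → b < u →
    ∫ v, G v * cu a b (v / 2) ^ 2 ∂ν = lam * eI k a b G

theorem Lm.rp_sq (h : Lm k ν u lam) {r : ℝ → ℝ} (hr : ContDiff ℝ ∞ r) :
    Rp k ν u lam (fun v => r (v / 2) ^ 2) := by
  refine ⟨by have := hr.continuous; fun_prop, fun a b ha hab hb => ?_⟩
  have h1 := h.ed _ b (cu_TF hab hr) (by linarith) hb
  have e1 : ∀ v : ℝ, ‖((r (v / 2) * cu a b (v / 2) : ℝ) : ℂ)‖ ^ 2 =
      r (v / 2) ^ 2 * cu a b (v / 2) ^ 2 := fun v => by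
    rw [Complex.norm_real, Real.norm_eq_abs, sq_abs, mul_pow]
  simp only [e1] at h1
  rw [h1]
  unfold eI
  congr 1
  refine integral_congr_ae (Eventually.of_forall fun x => ?_)
  simp only
  rw [Complex.norm_real, Real.norm_eq_abs, sq_abs, mul_pow, mul_div_cancel_left₀ _ (two_ne_zero)]

theorem Rp.add {G H : ℝ → ℝ} (h : Lm k ν u lam) (hG : Rp k ν u lam G) (hH : Rp k ν u lam H) :
    Rp k ν u lam (fun v => G v + H v) := by
  refine ⟨hG.1.add hH.1, fun a b ha hab hb => ?_⟩
  have c1 := (cu_smooth a b).continuous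
  have g1 := hG.1
  have g2 := hH.1
  have e1 : ∫ v, (G v + H v) * cu a b (v / 2) ^ 2 ∂ν =
      ∫ v, G v * cu a b (v / 2) ^ 2 ∂ν + ∫ v, H v * cu a b (v / 2) ^ 2 ∂ν := by
    rw [← integral_add (h.cint (by fun_prop)) (h.cint (by fun_prop))]
    refine integral_congr_ae (Eventually.of_forall fun v => ?_)
    simp only
    ring
  have e2 : eI k a b (fun v => G v + H v) = eI k a b G + eI k a b H := by
    unfold eI
    rw [← integral_add (eI_int k hab hG.1) (eI_int k hab hH.1)]
    refine integral_congr_ae (Eventually.of_forall fun x => ?_)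
    simp only
    ring
  rw [e1, e2, hG.2 a b ha hab hb, hH.2 a b ha hab hb, mul_add]

theorem Rp.smul {G : ℝ → ℝ} (hG : Rp k ν u lam G) (c : ℝ) :
    Rp k ν u lam (fun v => c * G v) := by
  refine ⟨by have := hG.1; fun_prop, fun a b ha hab hb => ?_⟩
  have e1 : ∫ v, (c * G v) * cu a b (v / 2) ^ 2 ∂ν = c * ∫ v, G v * cu a b (v / 2) ^ 2 ∂ν := by
    rw [← integral_const_mul]
    refine integral_congr_ae (Eventually.of_forall fun v => ?_)
    simp only
    ring
  have e2 : eI k a b (fun v => c * G v) = c * eI k a b G := by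
    unfold eI
    rw [← integral_const_mul]
    refine integral_congr_ae (Eventually.of_forall fun x => ?_)
    simp only
    ring
  rw [e1, e2, hG.2 a b ha hab hb]
  ring

theorem Lm.rp_const (h : Lm k ν u lam) (c : ℝ) : Rp k ν u lam (fun _ => c) := by
  have h1 := (h.rp_sq (r := fun _ => (1:ℝ)) contDiff_const).smul c
  simpa using h1

/-- the upper bound -/
theorem Lm.upper (h : Lm k ν u lam) {G : ℝ → ℝ} (hG : Rp k ν u lam G) (hs : ∀ v, G (2 * k - v) = G v)
    {θ : ℝ} (h0 : 0 ≤ θ) (hu : θ < u) (hk : 2 * θ < k)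
    (h1 : ∀ v, 0 ≤ v → v ≤ 2 * θ → G (2 * θ) ≤ G v)
    (h2 : ∀ v, 2 * θ ≤ v → v ≤ 2 * k - 2 * θ → G v ≤ G (2 * θ)) :
    ∫ v, G v ∂ν ≤ G (2 * θ) +
      2 * lam * ∫ x in (0:ℝ)..θ, gk k x * (G (2 * x) - G (2 * θ)) := by
  have := h.prob
  obtain ⟨b, hb1, hb2⟩ := exists_between (show θ < min u (k / 2) from lt_min hu (by linarith))
  have hbu : b < u := hb2.trans_le (min_le_left _ _)
  have hbk : b < k / 2 := hb2.trans_le (min_le_right _ _)
  set c : ℝ → ℝ := fun v => cu θ b (v / 2) ^ 2 with hc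
  have c1 := (cu_smooth θ b).continuous
  have cc : Continuous c := by rw [hc]; fun_prop
  have g1 := hG.1
  have c0 : ∀ v, 0 ≤ c v := fun v => sq_nonneg _
  have cle : ∀ v, c v ≤ 1 := fun v => pow_le_one₀ (cu_nonneg _ _ _) (cu_le_one _ _ _)
  have cz : ∀ v, 2 * b ≤ v → c v = 0 := fun v hv => by
    rw [hc]
    simp only
    rw [cu_zero hb1 (by linarith)]
    norm_num
  have hpt : ∀ v ∈ Icc (0:ℝ) (2 * k), G v ≤ G (2 * θ) +
      ((G v - G (2 * θ)) * c v + (G (2 * k - v) - G (2 * θ)) * c (2 * k - v)) := by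
    intro v hv
    rw [hs v]
    rcases le_or_gt v (2 * θ) with h3 | h3
    · have e1 : c v = 1 := by
        rw [hc]
        simp only
        rw [cu_one hb1 (by linarith [hv.1]) (by linarith)]
        norm_num
      have h4 := h1 v hv.1 h3
      have h5 := c0 (2 * k - v)
      rw [e1]
      nlinarith
    · rcases le_or_gt v (2 * k - 2 * θ) with h4 | h4
      · have h5 := h2 v h3.le h4
        have h6 : c v + c (2 * k - v) ≤ 1 := by
          rcases le_or_gt (2 * b) v with h7 | h7
          · rw [cz v h7, zero_add]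
            exact cle _
          · rw [cz (2 * k - v) (by linarith), add_zero]
            exact cle _
        nlinarith
      · have e1 : c (2 * k - v) = 1 := by
          rw [hc]
          simp only
          rw [cu_one hb1 (by linarith [hv.2]) (by linarith)]
          norm_num
        have h5 := h1 (2 * k - v) (by linarith [hv.2]) (by linarith)
        rw [hs v] at h5
        have h6 := c0 v
        rw [e1]
        nlinarith
  have hF : Continuous (fun v => (G v - G (2 * θ)) * c v) := by fun_prop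
  have i1 := h.mono (f := G) (g := fun v => G (2 * θ) +
      ((G v - G (2 * θ)) * c v + (G (2 * k - v) - G (2 * θ)) * c (2 * k - v))) hG.1 (by fun_prop) hpt
  have i2 : ∫ v, (G (2 * θ) + ((G v - G (2 * θ)) * c v +
      (G (2 * k - v) - G (2 * θ)) * c (2 * k - v))) ∂ν =
      G (2 * θ) + (∫ v, (G v - G (2 * θ)) * c v ∂ν + ∫ v, (G v - G (2 * θ)) * c v ∂ν) := by
    rw [integral_add (integrable_const _) (h.cint (by fun_prop)), integral_const, probReal_univ,
      one_smul, integral_add (h.cint hF) (h.cint (by fun_prop)), h.refl hF]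
  rw [i2] at i1
  have hR : Rp k ν u lam (fun v => G v - G (2 * θ)) := by
    have := Rp.add h hG (h.rp_const (-G (2 * θ)))
    simpa [sub_eq_add_neg] using this
  have i3 := hR.2 θ b h0 hb1 hbu
  have i4 : eI k θ b (fun v => G v - G (2 * θ)) ≤
      ∫ x in (0:ℝ)..θ, gk k x * (G (2 * x) - G (2 * θ)) := by
    rw [intervalIntegral.integral_of_le h0]
    unfold eI
    have hint := eI_int k hb1 (G := fun v => G v - G (2 * θ)) (by fun_prop)
    rw [← integral_indicator measurableSet_Ioi, ← integral_indicator measurableSet_Ioc]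
    refine integral_mono_ae (hint.integrable_indicator measurableSet_Ioi) ?_
      (Eventually.of_forall fun x => ?_)
    · refine IntegrableOn.integrable_indicator ?_ measurableSet_Ioc
      have hc2 : Continuous (fun x => gk k x * (G (2 * x) - G (2 * θ))) := by
        have := gk_cont k
        fun_prop
      exact (hc2.integrableOn_Icc (a := 0) (b := θ)).mono_set Ioc_subset_Icc_self
    · by_cases hx0 : 0 < x
      · rw [indicator_of_mem (mem_Ioi.2 hx0)]
        have q1 := gk_nonneg k hx0.le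
        by_cases hx1 : x ≤ θ
        · rw [indicator_of_mem (mem_Ioc.2 ⟨hx0, hx1⟩), cu_one hb1 hx0.le hx1]
          norm_num
        · rw [indicator_of_notMem (fun hh => hx1 (mem_Ioc.1 hh).2)]
          push Not at hx1
          rcases le_or_gt b x with hx2 | hx2
          · rw [cu_zero hb1 hx2]
            norm_num
          · have q2 := h2 (2 * x) (by linarith) (by linarith)
            have q3 : (G (2 * x) - G (2 * θ)) * cu θ b x ^ 2 ≤ 0 :=
              mul_nonpos_of_nonpos_of_nonneg (by linarith) (sq_nonneg _)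
            exact mul_nonpos_of_nonneg_of_nonpos q1 q3
      · rw [indicator_of_notMem (fun hh => hx0 (mem_Ioi.1 hh)),
          indicator_of_notMem (fun hh => hx0 (mem_Ioc.1 hh).1)]
  have i5 := mul_le_mul_of_nonneg_left i4 h.nn
  have e5 : ∫ v, (G v - G (2 * θ)) * c v ∂ν =
      ∫ v, (fun v => G v - G (2 * θ)) v * cu θ b (v / 2) ^ 2 ∂ν := rfl
  rw [e5, i3] at i1
  linarith

/-- the lower bound -/
theorem Lm.lower (h : Lm k ν u lam) {G : ℝ → ℝ} (hG : Rp k ν u lam G) (hs : ∀ v, G (2 * k - v) = G v)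
    {θ : ℝ} (h0 : 0 ≤ θ) (hu : θ < u) (hk : 2 * θ < k)
    (h1 : ∀ v : ℝ, 0 ≤ v → v ≤ 2 * k → G k ≤ G v) :
    G k + 2 * lam * ∫ x in (0:ℝ)..θ, gk k x * (G (2 * x) - G k) ≤ ∫ v, G v ∂ν := by
  have := h.prob
  obtain ⟨b, hb1, hb2⟩ := exists_between (show θ < min u (k / 2) from lt_min hu (by linarith))
  have hbu : b < u := hb2.trans_le (min_le_left _ _)
  have hbk : b < k / 2 := hb2.trans_le (min_le_right _ _)
  set c : ℝ → ℝ := fun v => cu θ b (v / 2) ^ 2 with hc
  have c1 := (cu_smooth θ b).continuous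
  have cc : Continuous c := by rw [hc]; fun_prop
  have g1 := hG.1
  have cle : ∀ v, c v ≤ 1 := fun v => pow_le_one₀ (cu_nonneg _ _ _) (cu_le_one _ _ _)
  have cz : ∀ v, 2 * b ≤ v → c v = 0 := fun v hv => by
    rw [hc]
    simp only
    rw [cu_zero hb1 (by linarith)]
    norm_num
  have hpt : ∀ v ∈ Icc (0:ℝ) (2 * k), G k +
      ((G v - G k) * c v + (G (2 * k - v) - G k) * c (2 * k - v)) ≤ G v := by
    intro v hv
    rw [hs v]
    have h5 := h1 v hv.1 hv.2
    have h6 : c v + c (2 * k - v) ≤ 1 := by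
      rcases le_or_gt (2 * b) v with h7 | h7
      · rw [cz v h7, zero_add]
        exact cle _
      · rw [cz (2 * k - v) (by linarith), add_zero]
        exact cle _
    nlinarith
  have hF : Continuous (fun v => (G v - G k) * c v) := by fun_prop
  have i1 := h.mono (f := fun v => G k +
      ((G v - G k) * c v + (G (2 * k - v) - G k) * c (2 * k - v))) (g := G) (by fun_prop) hG.1 hpt
  have i2 : ∫ v, (G k + ((G v - G k) * c v + (G (2 * k - v) - G k) * c (2 * k - v))) ∂ν =
      G k + (∫ v, (G v - G k) * c v ∂ν + ∫ v, (G v - G k) * c v ∂ν) := by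
    rw [integral_add (integrable_const _) (h.cint (by fun_prop)), integral_const, probReal_univ,
      one_smul, integral_add (h.cint hF) (h.cint (by fun_prop)), h.refl hF]
  rw [i2] at i1
  have hR : Rp k ν u lam (fun v => G v - G k) := by
    have := Rp.add h hG (h.rp_const (-G k))
    simpa [sub_eq_add_neg] using this
  have i3 := hR.2 θ b h0 hb1 hbu
  have i4 : ∫ x in (0:ℝ)..θ, gk k x * (G (2 * x) - G k) ≤ eI k θ b (fun v => G v - G k) := by
    rw [intervalIntegral.integral_of_le h0]
    unfold eI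
    have hint := eI_int k hb1 (G := fun v => G v - G k) (by fun_prop)
    rw [← integral_indicator measurableSet_Ioi, ← integral_indicator measurableSet_Ioc]
    refine integral_mono_ae ?_ (hint.integrable_indicator measurableSet_Ioi)
      (Eventually.of_forall fun x => ?_)
    · refine IntegrableOn.integrable_indicator ?_ measurableSet_Ioc
      have hc2 : Continuous (fun x => gk k x * (G (2 * x) - G k)) := by
        have := gk_cont k
        fun_prop
      exact (hc2.integrableOn_Icc (a := 0) (b := θ)).mono_set Ioc_subset_Icc_self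
    · by_cases hx0 : 0 < x
      · rw [indicator_of_mem (mem_Ioi.2 hx0)]
        have q1 := gk_nonneg k hx0.le
        by_cases hx1 : x ≤ θ
        · rw [indicator_of_mem (mem_Ioc.2 ⟨hx0, hx1⟩), cu_one hb1 hx0.le hx1]
          norm_num
        · rw [indicator_of_notMem (fun hh => hx1 (mem_Ioc.1 hh).2)]
          push Not at hx1
          rcases le_or_gt b x with hx2 | hx2
          · rw [cu_zero hb1 hx2]
            norm_num
          · have q2 := h1 (2 * x) (by linarith) (by linarith)
            have q3 : 0 ≤ (G (2 * x) - G k) * cu θ b x ^ 2 :=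
              mul_nonneg (by linarith) (sq_nonneg _)
            exact mul_nonneg q1 q3
      · rw [indicator_of_notMem (fun hh => hx0 (mem_Ioi.1 hh)),
          indicator_of_notMem (fun hh => hx0 (mem_Ioc.1 hh).1)]
  have i5 := mul_le_mul_of_nonneg_left i4 h.nn
  have e5 : ∫ v, (G v - G k) * c v ∂ν =
      ∫ v, (fun v => G v - G k) v * cu θ b (v / 2) ^ 2 ∂ν := rfl
  rw [e5, i3] at i1
  linarith

end

end Q80.DC
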