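import Pool.Agent.Q80.DC.Li

set_option autoImplicit false

/-! The limit measures along a subsequence. -/

namespace Q80.DC

open MeasureTheory Filter Topology Set
open Pool.Agent.W182.KO (TF)
open Q97.MM Q80.SP
open Q80.VS (ak ak_pos)
open scoped ContDiff

noncomputable section

variable {k : ℕ} {u : ℝ}

/-- the size of the diagonal -/
def NN (k : ℕ) (T U : ℝ) : ℝ := U * Real.log T ^ (k ^ 2)

theorem NN_pos {T U : ℝ} (h : Adm T U) : 0 < NN k T U := by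
  have := h.pos
  have := h.log
  unfold NN
  positivity

theorem TF_tst {ξ1 : ℝ} {ψ : ℝ → ℂ} (h : TF ξ1 ψ) : Tst ψ := ⟨h.cd, h.cs⟩

theorem eI_one_pos (k : ℕ) {a b : ℝ} (h0 : 0 < a) (hab : a < b) :
    0 < ∫ x in Ioi (0:ℝ), gk k x * ‖((1 * cu a b x : ℝ) : ℂ)‖ ^ 2 := by
  have hint := eI_int k hab (G := fun _ => (1:ℝ)) continuous_const
  have e1 : ∀ x : ℝ, gk k x * ‖((1 * cu a b x : ℝ) : ℂ)‖ ^ 2 = gk k x * (1 * cu a b x ^ 2) := by
    intro x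
    rw [Complex.norm_real, Real.norm_eq_abs, sq_abs, one_mul, one_mul]
  simp only [e1]
  have h1 : ∫ x in Ioc (0:ℝ) a, gk k x * (1 * cu a b x ^ 2) ≤
      ∫ x in Ioi (0:ℝ), gk k x * (1 * cu a b x ^ 2) := by
    refine setIntegral_mono_set hint ?_ Ioc_subset_Ioi_self.eventuallyLE
    rw [EventuallyLE, ae_restrict_iff' measurableSet_Ioi]
    exact Eventually.of_forall fun x hx => mul_nonneg (gk_nonneg k (mem_Ioi.1 hx).le)
      (by rw [one_mul]; exact sq_nonneg _)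
  refine lt_of_lt_of_le ?_ h1
  have h2 : ∫ x in Ioc (0:ℝ) a, gk k x * (1 * cu a b x ^ 2) = ∫ x in (0:ℝ)..a, gk k x := by
    rw [intervalIntegral.integral_of_le h0.le]
    refine setIntegral_congr_fun measurableSet_Ioc fun x hx => ?_
    rw [cu_one hab hx.1.le hx.2]
    norm_num
  rw [h2]
  unfold gk
  rw [intervalIntegral.integral_div, integral_pow]
  have : (0:ℝ) ^ (k ^ 2 - 1 + 1) = 0 := zero_pow (by omega)
  rw [this, sub_zero]
  positivity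

theorem ed_eq (hk : 1 ≤ k) (ψ : ℝ → ℂ) :
    ed k ψ = ak k * ∫ x in Ioi (0:ℝ), gk k x * ‖ψ x‖ ^ 2 := by
  unfold ed
  rw [Pool.Agent.W182.KO.gd_int hk (fun x => ‖ψ x‖ ^ 2)]
  rfl

theorem seqLm (hk : 1 ≤ k) {T U : ℕ → ℝ} (hu : 0 < u) (hT : Tendsto T atTop atTop)
    (hU : ∀ j, 1 ≤ U j ∧ U j ≤ T j / Real.log (T j)) (hUu : ∀ j, T j ^ u ≤ U j) :
    ∃ φ : ℕ → ℕ, StrictMono φ ∧ ∃ (ν : Measure ℝ) (lam : ℝ), Lm k ν u lam ∧
      Tendsto (fun j => √Real.pi * ak k * NN k (T (φ j)) (U (φ j)) / M0 k (T (φ j)) (U (φ j)))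
        atTop (𝓝 lam) ∧
      (∀ h : ℝ, Tendsto (fun j => Cq k (T (φ j)) (U (φ j)) h) atTop (𝓝 (fr ν h))) ∧
      (∀ a : ℝ, Tendsto (fun j => Ja k (T (φ j)) (U (φ j)) a / Ja k (T (φ j)) (U (φ j)) 0) atTop
        (𝓝 (∫ v, Real.exp (-(a * v)) ∂ν))) ∧
      ∀ᶠ j in atTop, 0 < M0 k (T (φ j)) (U (φ j)) := by
  obtain ⟨φ, hφ, ν, hν, h1, h2, h3, h4, h5, h6⟩ := core4 k hu hT hU hUu
  have hTs : Tendsto (fun j => T (φ j)) atTop atTop := hT.comp hφ.tendsto_atTop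
  have hadm := hφ.tendsto_atTop.eventually (seq_adm hT hU)
  set r : ℕ → ℝ := fun j => NN k (T (φ j)) (U (φ j)) / M0 k (T (φ j)) (U (φ j)) with hr
  have hpi : 0 < √Real.pi := Real.sqrt_pos.2 Real.pi_pos
  have r0 : ∀ᶠ j in atTop, 0 ≤ r j := by
    filter_upwards [hadm, h5] with j q1 q2
    exact div_nonneg (NN_pos q1).le q2.le
  -- the comparison
  have hcmp : ∀ (ψ : ℝ → ℂ) (ξ1 : ℝ), TF ξ1 ψ → 0 ≤ ξ1 → ξ1 < u → ∀ ε : ℝ, 0 < ε →
      ∀ᶠ j in atTop, |SS k ψ (T (φ j)) (U (φ j)) / M0 k (T (φ j)) (U (φ j)) -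
        √Real.pi * ed k ψ * r j| ≤ ε * r j := by
    intro ψ ξ1 hψ h0 h1 ε hε
    filter_upwards [hTs.eventually (edge_mean hk hψ h0 h1 hε), hadm, h5] with j q1 q2 q3
    have q4 := q1 _ q2 (hUu _)
    have e1 : SS k ψ (T (φ j)) (U (φ j)) / M0 k (T (φ j)) (U (φ j)) - √Real.pi * ed k ψ * r j =
        (SS k ψ (T (φ j)) (U (φ j)) - √Real.pi * (U (φ j) * Real.log (T (φ j)) ^ (k ^ 2)) *
          ed k ψ) / M0 k (T (φ j)) (U (φ j)) := by
      rw [hr]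
      unfold NN
      field_simp
    have e2 : ε * r j = (ε * (U (φ j) * Real.log (T (φ j)) ^ (k ^ 2))) /
        M0 k (T (φ j)) (U (φ j)) := by
      rw [hr]
      unfold NN
      field_simp
    rw [e1, e2, abs_div, abs_of_pos q3]
    gcongr
  -- a bump
  set ψ0 : ℝ → ℂ := fun x => (((fun _ => (1:ℝ)) x * cu (u / 4) (u / 2) x : ℝ) : ℂ) with hψ0
  have t0 : TF (u / 2) ψ0 := cu_TF (by linarith) contDiff_const
  have ep : 0 < ed k ψ0 := by
    rw [ed_eq hk]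
    exact mul_pos (ak_pos hk) (eI_one_pos k (by linarith) (by linarith))
  have hc := hcmp ψ0 (u / 2) t0 (by linarith) (by linarith)
  have hS0 := h6 ψ0 (TF_tst t0)
  set S0 : ℝ := ∫ v, ‖ψ0 (v / 2)‖ ^ 2 ∂ν with hS0d
  have hS00 : 0 ≤ S0 := integral_nonneg fun v => by positivity
  have hbd : ∃ R : ℝ, 0 < R ∧ ∀ᶠ j in atTop, r j ≤ R := by
    refine ⟨(S0 + 1) / (√Real.pi * ed k ψ0 / 2), by positivity, ?_⟩
    filter_upwards [hc (√Real.pi * ed k ψ0 / 2) (by positivity),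
      hS0.eventually (gt_mem_nhds (show S0 < S0 + 1 by linarith)), r0] with j q1 q2 q3
    have q4 := (abs_le.1 q1).1
    rw [le_div_iff₀ (by positivity)]
    nlinarith
  obtain ⟨R, hR0, hR⟩ := hbd
  have hlim : ∀ (ψ : ℝ → ℂ) (ξ1 : ℝ), TF ξ1 ψ → 0 ≤ ξ1 → ξ1 < u →
      Tendsto (fun j => √Real.pi * ed k ψ * r j) atTop (𝓝 (∫ v, ‖ψ (v / 2)‖ ^ 2 ∂ν)) := by
    intro ψ ξ1 hψ h0 h1
    have g1 := h6 ψ (TF_tst hψ)
    have g2 : Tendsto (fun j => SS k ψ (T (φ j)) (U (φ j)) / M0 k (T (φ j)) (U (φ j)) -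
        √Real.pi * ed k ψ * r j) atTop (𝓝 0) := by
      rw [Metric.tendsto_nhds]
      intro ε hε
      filter_upwards [hcmp ψ ξ1 hψ h0 h1 (ε / (2 * R)) (by positivity), hR, r0] with j q1 q2 q3
      rw [Real.dist_eq, sub_zero]
      refine q1.trans_lt ?_
      calc ε / (2 * R) * r j ≤ ε / (2 * R) * R := by gcongr
        _ = ε / 2 := by field_simp
        _ < ε := by linarith
    have g3 := g1.sub g2
    simp only [sub_sub_cancel, sub_zero] at g3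
    exact g3
  have hr1 : Tendsto r atTop (𝓝 (S0 / (√Real.pi * ed k ψ0))) := by
    have g1 := (hlim ψ0 (u / 2) t0 (by linarith) (by linarith)).div_const (√Real.pi * ed k ψ0)
    refine g1.congr fun j => ?_
    field_simp
  set r1 : ℝ := S0 / (√Real.pi * ed k ψ0) with hr1d
  have r10 : 0 ≤ r1 := by positivity
  have hak := ak_pos hk
  refine ⟨φ, hφ, ν, √Real.pi * ak k * r1, ⟨hν, h1, h2, by positivity, fun ψ ξ1 hψ h0 h7 => ?_⟩,
    ?_, h3, h4, h5⟩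
  · have g1 := hlim ψ ξ1 hψ h0 h7
    have g2 := hr1.const_mul (√Real.pi * ed k ψ)
    have g3 := tendsto_nhds_unique g1 g2
    rw [g3, ed_eq hk]
    ring
  · refine (hr1.const_mul (√Real.pi * ak k)).congr fun j => ?_
    rw [hr]
    ring

end

end Q80.DC
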